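import Mathlib

set_option autoImplicit false

namespace Pool.Agent.Results.MP_d10f6f_co.WeakRainbowCliques

open Finset

/-- The colours after all edges have been added: an edge of `G` has its colour under `χ`, the added
edge `e j` has colour `c j`; other pairs get the irrelevant value `0`. -/
noncomputable def addedColour {V : Type*} {m : ℕ} (G : SimpleGraph V) (χ : G.edgeSet → ℕ)
    (e : Fin m → Sym2 V) (c : Fin m → ℕ) (p : Sym2 V) : ℕ := by
  classical
  exact if h : p ∈ G.edgeSet then χ ⟨p, h⟩ else if h' : ∃ j, e j = p then c h'.choose else 0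

/-- The graph `G + e 0 + ... + e i`. -/
def addedGraph {V : Type*} {m : ℕ} (G : SimpleGraph V) (e : Fin m → Sym2 V) (i : Fin m) :
    SimpleGraph V :=
  G ⊔ SimpleGraph.fromEdgeSet {p | ∃ j : Fin m, j ≤ i ∧ e j = p}

/-- `T` spans a rainbow complete subgraph of the graph `H` coloured by `κ`: all pairs of distinct
elements of `T` are edges of `H`, and different such pairs have different colours. -/
def IsRainbowClique {V : Type*} (H : SimpleGraph V) (κ : Sym2 V → ℕ) (T : Finset V) : Prop :=
  H.IsClique (T : Set V) ∧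
    ∀ p q : Sym2 V, p ∈ H.edgeSet → q ∈ H.edgeSet → (∀ v ∈ p, v ∈ T) → (∀ v ∈ q, v ∈ T) →
      κ p = κ q → p = q

/-- The edge-coloured graph `(G, χ)` is weakly `K_r`-rainbow saturated: the non-edges can be ordered
as `e 0, ..., e (m-1)` such that for every choice of pairwise distinct colours `c i`, every `e i`
lies in a rainbow copy of `K_r` in `G + e 0 + ... + e i`. -/
def IsWeaklyRainbowSaturated {V : Type*} (r : ℕ) (G : SimpleGraph V) (χ : G.edgeSet → ℕ) : Prop :=
  ∃ (m : ℕ) (e : Fin m → Sym2 V), Function.Injective e ∧ Set.range e = Gᶜ.edgeSet ∧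
    ∀ c : Fin m → ℕ, Function.Injective c → ∀ i : Fin m,
      ∃ T : Finset V, T.card = r ∧ (∀ v ∈ e i, v ∈ T) ∧
        IsRainbowClique (addedGraph G e i) (addedColour G χ e c) T

/-- The weak rainbow saturation number `rwsat(n, K_r)`. -/
noncomputable def rwsat (n r : ℕ) : ℕ :=
  sInf {k : ℕ | ∃ (G : SimpleGraph (Fin n)) (χ : G.edgeSet → ℕ),
    IsWeaklyRainbowSaturated r G χ ∧ G.edgeSet.ncard = k}

/-- The join of a complete graph on the vertices below `s` and an independent set. -/
def coreGraph (n s : ℕ) : SimpleGraph (Fin n) where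
  Adj u v := u ≠ v ∧ (u.1 < s ∨ v.1 < s)
  symm := ⟨fun _ _ h => ⟨h.1.symm, h.2.symm⟩⟩
  loopless := ⟨fun _ h => h.1 rfl⟩

lemma mem_core_edge {n s : ℕ} (u v : Fin n) :
    s(u, v) ∈ (coreGraph n s).edgeSet ↔ u ≠ v ∧ (u.1 < s ∨ v.1 < s) := by
  rw [SimpleGraph.mem_edgeSet]; rfl

lemma sum_aux (n : ℕ) : ∀ s : ℕ, s ≤ n →
    ∑ i ∈ range s, (n - 1 - i) + (s + 1).choose 2 = s * n := by
  intro s
  induction s with
  | zero => intro _; simp
  | succ s ih =>
    intro h
    have h1 := ih (by omega)
    have h3 : (s + 1 + 1).choose 2 = (s + 1) + (s + 1).choose 2 := by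
      rw [Nat.choose_succ_succ' (s + 1) 1, Nat.choose_one_right]
    have h2 : (s + 1) * n = s * n + n := by ring
    rw [Finset.sum_range_succ, h3, h2, ← h1]
    omega

lemma core_edges_le (n s : ℕ) (hs : s ≤ n) :
    (coreGraph n s).edgeSet.ncard + (s + 1).choose 2 ≤ s * n := by
  classical
  have hsub : (coreGraph n s).edgeSet ⊆
      (((univ : Finset (Fin n)).filter (fun i => i.1 < s)).biUnion
        (fun i => (Ioi i).image (fun j => s(i, j))) : Finset (Sym2 (Fin n))) := by
    intro p hp
    induction p using Sym2.ind with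
    | _ a b =>
      rw [mem_core_edge] at hp
      obtain ⟨hab, h⟩ := hp
      simp only [coe_biUnion, Set.mem_iUnion, mem_coe, mem_filter, mem_univ, true_and, mem_image,
        mem_Ioi]
      rcases lt_or_gt_of_ne hab with hlt | hlt
      · refine ⟨a, ?_, b, hlt, rfl⟩
        rcases h with h | h
        · exact h
        · exact lt_trans (Fin.lt_def.mp hlt) h
      · refine ⟨b, ?_, a, hlt, Sym2.eq_swap⟩
        rcases h with h | h
        · exact lt_trans (Fin.lt_def.mp hlt) h
        · exact h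
  have h1 : (coreGraph n s).edgeSet.ncard ≤ ∑ i ∈ range s, (n - 1 - i) := by
    calc (coreGraph n s).edgeSet.ncard
        ≤ _ := Set.ncard_le_ncard hsub (Finset.finite_toSet _)
      _ = _ := Set.ncard_coe_finset _
      _ ≤ _ := Finset.card_biUnion_le
      _ ≤ ∑ i ∈ (univ : Finset (Fin n)).filter (fun i => i.1 < s), (n - 1 - i.1) := by
          apply Finset.sum_le_sum
          intro i _
          exact le_trans Finset.card_image_le (by rw [Fin.card_Ioi])
      _ = ∑ i ∈ range s, (n - 1 - i) := by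
          refine Finset.sum_bij (fun i _ => i.1) ?_ ?_ ?_ ?_
          · intro i hi
            simpa using hi
          · intro i _ j _ hij
            exact Fin.ext hij
          · intro k hk
            have hk' : k < s := by simpa using hk
            exact ⟨⟨k, by omega⟩, by simpa using hk', rfl⟩
          · intro i _
            rfl
  have h2 := sum_aux n s hs
  omega

/-- An injective colouring of the edges of the core graph makes it weakly saturated. -/
lemma core_saturated (n s : ℕ) (hs : 1 ≤ s) (hn : s ≤ n) (G : SimpleGraph (Fin n))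
    (hG : ∀ a b : Fin n, s(a, b) ∈ G.edgeSet ↔ a ≠ b ∧ (a.1 < s ∨ b.1 < s))
    (χ : G.edgeSet → ℕ) (hχ : Function.Injective χ) :
    IsWeaklyRainbowSaturated (s + 1) G χ := by
  classical
  let E := Fintype.equivFin (Gᶜ.edgeSet)
  have hrange : Set.range (fun i => ((E.symm i : Gᶜ.edgeSet) : Sym2 (Fin n))) = Gᶜ.edgeSet := by
    ext p
    constructor
    · rintro ⟨i, rfl⟩
      exact (E.symm i).2
    · intro hp
      exact ⟨E ⟨p, hp⟩, by simp⟩
  have hinj : Function.Injective (fun i => ((E.symm i : Gᶜ.edgeSet) : Sym2 (Fin n))) := by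
    intro i j hij
    exact E.symm.injective (Subtype.ext hij)
  refine ⟨_, fun i => ((E.symm i : Gᶜ.edgeSet) : Sym2 (Fin n)), hinj, hrange, ?_⟩
  intro c _ i
  set e : Fin (Fintype.card Gᶜ.edgeSet) → Sym2 (Fin n) :=
    fun i => ((E.symm i : Gᶜ.edgeSet) : Sym2 (Fin n)) with he
  have hei : e i ∈ Gᶜ.edgeSet := (E.symm i).2
  have heG : e i ∉ G.edgeSet := by
    intro h
    revert hei h
    generalize e i = p
    induction p using Sym2.ind with
    | _ a b =>
      intro h1 h2
      rw [SimpleGraph.mem_edgeSet, SimpleGraph.compl_adj] at h1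
      exact h1.2 h2
  -- the colour of the new edge
  have hcol : addedColour G χ e c (e i) = c i := by
    unfold addedColour
    have h' : ∃ j, e j = e i := ⟨i, rfl⟩
    rw [dif_neg heG, dif_pos h']
    exact congrArg c (hinj h'.choose_spec)
  have hcolG : ∀ (p : Sym2 (Fin n)) (hp : p ∈ G.edgeSet), addedColour G χ e c p = χ ⟨p, hp⟩ := by
    intro p hp
    unfold addedColour
    rw [dif_pos hp]
  obtain ⟨u, v, huv⟩ : ∃ u v, e i = s(u, v) := by
    generalize e i = p
    induction p using Sym2.ind with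
    | _ a b => exact ⟨a, b, rfl⟩
  have huv' : u ≠ v ∧ ¬ u.1 < s ∧ ¬ v.1 < s := by
    rw [huv, SimpleGraph.mem_edgeSet, SimpleGraph.compl_adj] at hei
    refine ⟨hei.1, ?_, ?_⟩
    · intro h
      exact hei.2 ((SimpleGraph.mem_edgeSet _).mp ((hG u v).mpr ⟨hei.1, Or.inl h⟩))
    · intro h
      exact hei.2 ((SimpleGraph.mem_edgeSet _).mp ((hG u v).mpr ⟨hei.1, Or.inr h⟩))
  obtain ⟨hne, hu, hv⟩ := huv'
  -- the core vertex to be left out
  obtain ⟨x, hx, hxp⟩ : ∃ x : Fin n, x.1 < s ∧
      ∀ (p : Sym2 (Fin n)) (hp : p ∈ G.edgeSet), χ ⟨p, hp⟩ = c i → x ∈ p := by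
    by_cases hex : ∃ (p : Sym2 (Fin n)) (hp : p ∈ G.edgeSet), χ ⟨p, hp⟩ = c i
    · obtain ⟨p, hp, hpc⟩ := hex
      have huniq : ∀ (q : Sym2 (Fin n)) (hq : q ∈ G.edgeSet), χ ⟨q, hq⟩ = c i → q = p := by
        intro q hq hqc
        have := hχ (hqc.trans hpc.symm)
        exact congrArg Subtype.val this
      obtain ⟨a, b, hab⟩ : ∃ a b, p = s(a, b) := by
        induction p using Sym2.ind with
        | _ a b => exact ⟨a, b, rfl⟩
      have hp' : a ≠ b ∧ (a.1 < s ∨ b.1 < s) := by
        rw [← hG, ← hab]; exact hp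
      rcases hp'.2 with h | h
      · refine ⟨a, h, fun q hq hqc => ?_⟩
        rw [huniq q hq hqc, hab]; simp
      · refine ⟨b, h, fun q hq hqc => ?_⟩
        rw [huniq q hq hqc, hab]; simp
    · refine ⟨⟨0, by omega⟩, hs, fun p hp hpc => ?_⟩
      exact absurd ⟨p, hp, hpc⟩ hex
  set S : Finset (Fin n) := univ.filter (fun w => w.1 < s) with hS
  have hScard : S.card = s := by
    rw [hS, Fin.card_filter_val_lt]
    omega
  set T : Finset (Fin n) := insert u (insert v (S.erase x)) with hT
  have huS : u ∉ S := by simp [hS]; omega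
  have hvS : v ∉ S := by simp [hS]; omega
  have hxS : x ∈ S := by simp [hS]; exact hx
  have hxT : x ∉ T := by
    rw [hT, mem_insert, mem_insert]
    rintro (h | h | h)
    · exact huS (h ▸ hxS)
    · exact hvS (h ▸ hxS)
    · exact (mem_erase.mp h).1 rfl
  have hTcase : ∀ a ∈ T, a = u ∨ a = v ∨ a.1 < s := by
    intro a ha
    rw [hT, mem_insert, mem_insert, mem_erase, hS, mem_filter] at ha
    tauto
  have hpair : ∀ a ∈ T, ∀ b ∈ T, a ≠ b → s(a, b) ∈ G.edgeSet ∨ s(a, b) = e i := by
    intro a ha b hb hab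
    rcases hTcase a ha with h | h | h
    · rcases hTcase b hb with h' | h' | h'
      · exact absurd (h.trans h'.symm) hab
      · right; rw [h, h', huv]
      · left; rw [hG]; exact ⟨hab, Or.inr h'⟩
    · rcases hTcase b hb with h' | h' | h'
      · right; rw [h, h', huv]; exact Sym2.eq_swap
      · exact absurd (h.trans h'.symm) hab
      · left; rw [hG]; exact ⟨hab, Or.inr h'⟩
    · left; rw [hG]; exact ⟨hab, Or.inl h⟩
  refine ⟨T, ?_, ?_, ?_, ?_⟩
  · rw [hT, card_insert_of_notMem, card_insert_of_notMem, card_erase_of_mem hxS, hScard]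
    · omega
    · intro h; exact hvS (mem_of_mem_erase h)
    · intro h
      rw [mem_insert] at h
      rcases h with h | h
      · exact hne h
      · exact huS (mem_of_mem_erase h)
  · intro w hw
    change w ∈ e i at hw
    rw [huv, Sym2.mem_iff] at hw
    rw [hT, mem_insert, mem_insert]
    tauto
  · intro a ha b hb hab
    unfold addedGraph
    rw [SimpleGraph.sup_adj]
    rcases hpair a ha b hb hab with h | h
    · left; exact h
    · right
      rw [SimpleGraph.fromEdgeSet_adj]
      exact ⟨⟨i, le_refl _, h.symm⟩, hab⟩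
  · intro p q hp hq hpT hqT hpq
    have key : ∀ p : Sym2 (Fin n), p ∈ (addedGraph G e i).edgeSet → (∀ v ∈ p, v ∈ T) →
        p ∈ G.edgeSet ∨ p = e i := by
      intro p
      induction p using Sym2.ind with
      | _ a b =>
        intro hp hpT
        have hab : a ≠ b := (SimpleGraph.mem_edgeSet _ |>.mp hp).ne
        exact hpair a (hpT a (by simp)) b (hpT b (by simp)) hab
    have hno : ∀ (p : Sym2 (Fin n)) (hp : p ∈ G.edgeSet), (∀ v ∈ p, v ∈ T) →
        χ ⟨p, hp⟩ ≠ c i := by
      intro p hp hpT h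
      exact hxT (hpT x (hxp p hp h))
    rcases key p hp hpT with h1 | h1 <;> rcases key q hq hqT with h2 | h2
    · rw [hcolG p h1, hcolG q h2] at hpq
      exact congrArg Subtype.val (hχ hpq)
    · rw [hcolG p h1, h2, hcol] at hpq
      exact absurd hpq (hno p h1 hpT)
    · rw [hcolG q h2, h1, hcol] at hpq
      exact absurd hpq.symm (hno q h2 hqT)
    · rw [h1, h2]

/-- For all `r ≥ 2` and `n ≥ r - 1` we have `rwsat(n, K_r) ≤ (r-1) n - (r choose 2)`. In particular
`rwsat(n, K_r) ≤ r n + C` holds for every `r ≥ 3` with `C = 0`. -/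
theorem result (r : ℕ) (hr : 2 ≤ r) (n : ℕ) (hn : r - 1 ≤ n) :
    rwsat n r + r.choose 2 ≤ (r - 1) * n := by
  classical
  obtain ⟨s, rfl⟩ : ∃ s, r = s + 1 := ⟨r - 1, by omega⟩
  rw [Nat.add_sub_cancel] at hn ⊢
  refine le_trans (Nat.add_le_add_right ?_ _) (core_edges_le n s hn)
  apply Nat.sInf_le
  refine ⟨coreGraph n s, fun p => (Fintype.equivFin (Sym2 (Fin n)) p.1).1, ?_, rfl⟩
  apply core_saturated n s (by omega) hn _ (fun a b => mem_core_edge a b)
  intro p q h
  exact Subtype.ext ((Fintype.equivFin (Sym2 (Fin n))).injective (Fin.ext h))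

end Pool.Agent.Results.MP_d10f6f_co.WeakRainbowCliques
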